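import Pool.Agent.helper80.EN.Spec

/-!
# Row JNN (MP_43ab4e_al): reduction of Q1 to just non-nilpotent groups

In a finitely generated group every term of the lower central series is the normal closure of a
finite set, so the normal subgroups with non-nilpotent quotient are closed under unions of chains.
-/

set_option autoImplicit false

namespace Pool.Agent.helper80.EN

open Subgroup commutatorElement

universe u

section Aux

variable {X : Type u} [Group X]

/-- `X / N` is nilpotent iff some term of the lower central series is in `N`. -/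
theorem nilpotent_quotient_iff (N : Subgroup X) [N.Normal] :
    Group.IsNilpotent (X ⧸ N) ↔ ∃ c, (⊤ : Subgroup X).lowerCentralSeries c ≤ N := by
  rw [Subgroup.nilpotent_iff_lowerCentralSeries]
  refine exists_congr fun c => ?_
  have h : ((⊤ : Subgroup X).lowerCentralSeries c).map (QuotientGroup.mk' N)
      = (⊤ : Subgroup (X ⧸ N)).lowerCentralSeries c := by
    rw [map_lowerCentralSeries, ← MonoidHom.range_eq_map,
      MonoidHom.range_eq_top.mpr (QuotientGroup.mk'_surjective N)]
  rw [← h, Subgroup.map_eq_bot_iff, QuotientGroup.ker_mk']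

/-- The elements that commute modulo `M` with `f` form a subgroup. -/
theorem comm_mem_of_closure (M : Subgroup X) [M.Normal] (T : Set X) (hT : closure T = ⊤) (f : X)
    (h : ∀ t ∈ T, ⁅f, t⁆ ∈ M) : ∀ y : X, ⁅f, y⁆ ∈ M := by
  have key : ∀ y : X, ⁅f, y⁆ ∈ M ↔
      y ∈ (Subgroup.centralizer {(QuotientGroup.mk' M f)}).comap (QuotientGroup.mk' M) := by
    intro y
    rw [Subgroup.mem_comap, Subgroup.mem_centralizer_singleton_iff,
      ← QuotientGroup.eq_one_iff (N := M)]
    have : ((⁅f, y⁆ : X) : X ⧸ M) = ⁅(f : X ⧸ M), (y : X ⧸ M)⁆ := rfl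
    rw [this, commutatorElement_eq_one_iff_mul_comm]
    constructor
    · intro h; exact h.symm
    · intro h; exact h.symm
  have hle : closure T ≤
      (Subgroup.centralizer {(QuotientGroup.mk' M f)}).comap (QuotientGroup.mk' M) := by
    rw [closure_le]
    intro t ht
    exact (key t).1 (h t ht)
  intro y
  rw [key]
  exact hle (hT ▸ mem_top y)

/-- In a finitely generated group the terms of the lower central series are the normal closures
of finite sets. -/
theorem lcs_normalClosure_finite (T : Finset X) (hT : closure (T : Set X) = ⊤) (c : ℕ) :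
    ∃ F : Set X, F.Finite ∧ (⊤ : Subgroup X).lowerCentralSeries c = normalClosure F := by
  induction c with
  | zero =>
    refine ⟨T, T.finite_toSet, ?_⟩
    rw [Subgroup.lowerCentralSeries_zero]
    refine le_antisymm ?_ le_top
    rw [← hT]
    exact closure_le_normalClosure
  | succ c ih =>
    obtain ⟨F, hF, hFc⟩ := ih
    refine ⟨Set.image2 (fun f t => ⁅f, t⁆) F T, hF.image2 _ T.finite_toSet, ?_⟩
    rw [Subgroup.lowerCentralSeries_succ]
    set M := normalClosure (Set.image2 (fun f t => ⁅f, t⁆) F (T : Set X)) with hM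
    refine le_antisymm ?_ ?_
    · -- `[γ_c, X] ≤ M`
      rw [Subgroup.commutator_le]
      have h1 : F ⊆ (Subgroup.upperCentralSeriesStep M : Subgroup X) := by
        intro f hf y
        refine comm_mem_of_closure M (T : Set X) hT f (fun t ht => ?_) y
        exact subset_normalClosure ⟨f, hf, t, ht, rfl⟩
      have hn : (Subgroup.upperCentralSeriesStep M).Normal := by
        rw [Subgroup.upperCentralSeriesStep_eq_comap_center]
        infer_instance
      have h2 : normalClosure F ≤ Subgroup.upperCentralSeriesStep M := normalClosure_le_normal h1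
      intro g hg y _
      rw [hFc] at hg
      exact h2 hg y
    · have hn : (⁅(⊤ : Subgroup X).lowerCentralSeries c, ⊤⁆ : Subgroup X).Normal := by
        infer_instance
      refine normalClosure_le_normal ?_
      rintro _ ⟨f, hf, t, _, rfl⟩
      refine Subgroup.commutator_mem_commutator ?_ (mem_top t)
      rw [hFc]
      exact subset_normalClosure hf

/-- A finitely generated group which is not nilpotent has a normal subgroup maximal subject to
having non-nilpotent quotient. -/
theorem exists_max_nonnilpotent (T : Finset X) (hT : closure (T : Set X) = ⊤)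
    (hX : ¬ Group.IsNilpotent X) :
    ∃ (N : Subgroup X) (_ : N.Normal), ¬ Group.IsNilpotent (X ⧸ N) ∧
      ∀ L : Subgroup X, L.Normal → N < L → ∃ c, (⊤ : Subgroup X).lowerCentralSeries c ≤ L := by
  have hz := zorn_le_nonempty₀
    {N : Subgroup X | N.Normal ∧ ∀ c, ¬ (⊤ : Subgroup X).lowerCentralSeries c ≤ N} ?_ ⊥ ?_
  · obtain ⟨N, _, ⟨hN, hNc⟩, hmax⟩ := hz
    refine ⟨N, hN, ?_, ?_⟩
    · rw [nilpotent_quotient_iff]
      rintro ⟨c, hc⟩
      exact hNc c hc
    · intro L hL hlt
      by_contra hcon
      push Not at hcon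
      exact absurd (hmax ⟨hL, hcon⟩ hlt.le) (not_le_of_gt hlt)
  · intro C hC hchain N0 hN0
    have hdir : DirectedOn (· ≤ ·) C := hchain.directedOn
    refine ⟨sSup C, ⟨?_, ?_⟩, fun z hz => le_sSup hz⟩
    · constructor
      intro n hn g
      rw [mem_sSup_of_directedOn ⟨N0, hN0⟩ hdir] at hn ⊢
      obtain ⟨K, hK, hnK⟩ := hn
      exact ⟨K, hK, (hC hK).1.conj_mem n hnK g⟩
    · intro c hc
      obtain ⟨F, hF, hFc⟩ := lcs_normalClosure_finite T hT c
      have hsub : F ⊆ (sSup C : Subgroup X) := by
        intro f hf
        refine hc ?_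
        rw [hFc]
        exact subset_normalClosure hf
      -- a finite subset of a directed union lies in a member
      have hmem : ∃ K ∈ C, F ⊆ K := by
        have : ∀ F' : Set X, F'.Finite → F' ⊆ (sSup C : Subgroup X) → ∃ K ∈ C, F' ⊆ K := by
          intro F' hF'
          induction F', hF' using Set.Finite.induction_on with
          | empty => intro _; exact ⟨N0, hN0, Set.empty_subset _⟩
          | @insert a s _ _ ih =>
            intro hs
            obtain ⟨K, hK, hsK⟩ := ih ((Set.subset_insert a s).trans hs)
            have ha : a ∈ (sSup C : Subgroup X) := hs (Set.mem_insert a s)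
            rw [mem_sSup_of_directedOn ⟨N0, hN0⟩ hdir] at ha
            obtain ⟨K', hK', haK'⟩ := ha
            obtain ⟨K'', hK'', h1, h2⟩ := hdir K hK K' hK'
            refine ⟨K'', hK'', ?_⟩
            rw [Set.insert_subset_iff]
            exact ⟨h2 haK', hsK.trans h1⟩
        exact this F hF hsub
      obtain ⟨K, hK, hFK⟩ := hmem
      have := (hC hK).1
      refine (hC hK).2 c ?_
      rw [hFc]
      exact normalClosure_le_normal hFK
  · refine ⟨inferInstance, ?_⟩
    intro c hc
    refine hX ?_
    rw [Subgroup.nilpotent_iff_lowerCentralSeries]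
    exact ⟨c, le_bot_iff.1 hc⟩

end Aux

/-- A conjugate of a right `l`-Engel element is right `l`-Engel. -/
theorem rightNEngel_conj (hBAS : BAS_stmt.{u}) (l : ℕ) (G : Type u) [Group G] (a : G)
    (h : RightNEngel l a) (g : G) : RightNEngel l (g⁻¹ * a * g) := by
  intro x
  have h1 := (hBAS G).1 a (g * x * g⁻¹) g l
  have h2 : g⁻¹ * (g * x * g⁻¹) * g = x := by group
  rw [h2, h (g * x * g⁻¹)] at h1
  rw [h1]
  group

theorem rightNEngel_map (hBAS : BAS_stmt.{u}) (l : ℕ) (G H : Type u) [Group G] [Group H]
    (f : G →* H) (hf : Function.Surjective f) (a : G)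
    (h : RightNEngel l a) : RightNEngel l (f a) := by
  intro x
  obtain ⟨y, rfl⟩ := hf x
  rw [← (hBAS G).2.1 H f a y l, h y, map_one]

theorem rightNEngel_of_injective (hBAS : BAS_stmt.{u}) (l : ℕ) (G H : Type u) [Group G] [Group H]
    (f : G →* H) (hf : Function.Injective f) (a : G)
    (h : RightNEngel l (f a)) : RightNEngel l a := by
  intro x
  apply hf
  rw [(hBAS G).2.1 H f a x l, h (f x), map_one]

theorem JNN (hMAJ : MAJ_stmt.{u}) (hRLE : RLE_stmt.{u}) (hLNI : LNI_stmt.{u})
    (hHPR : HPR_stmt.{u}) (hTRF : TRF_stmt.{u}) (hBAS : BAS_stmt.{u}) : JNN_stmt.{u} := by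
  intro l G _ a ha hHP
  classical
  -- step 1: a finitely generated non-nilpotent subgroup of the normal closure
  have h1 : ∃ S : Set G, S.Finite ∧ (∀ s ∈ S, RightNEngel l s) ∧
      ¬ Group.IsNilpotent (closure S) := by
    by_contra hcon
    push Not at hcon
    refine hHP ?_
    have hloc : LocNilp (normalClosure {a}) := by
      intro K hK hKle
      obtain ⟨S0, hS0⟩ := hK
      have hfin : ∀ x ∈ normalClosure {a}, ∃ S : Set G, S.Finite ∧
          (∀ s ∈ S, RightNEngel l s) ∧ x ∈ closure S := by
        intro x hx
        unfold normalClosure at hx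
        induction hx using closure_induction with
        | mem x hx =>
          refine ⟨{x}, Set.finite_singleton x, ?_, subset_closure rfl⟩
          intro s hs
          rw [Set.mem_singleton_iff] at hs
          subst hs
          rw [Group.conjugatesOfSet] at hx
          simp only [Set.mem_singleton_iff, Set.iUnion_iUnion_eq_left] at hx
          have hx' : IsConj a s := hx
          obtain ⟨g, hg⟩ := isConj_iff.1 hx'
          rw [← hg]
          have := rightNEngel_conj hBAS l G a ha g⁻¹
          rwa [inv_inv] at this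
        | one => exact ⟨∅, Set.finite_empty, by simp, one_mem _⟩
        | mul x y _ _ ihx ihy =>
          obtain ⟨S1, h1, h1', h1''⟩ := ihx
          obtain ⟨S2, h2, h2', h2''⟩ := ihy
          refine ⟨S1 ∪ S2, h1.union h2, ?_, ?_⟩
          · rintro s (hs | hs)
            · exact h1' s hs
            · exact h2' s hs
          · exact mul_mem (closure_mono Set.subset_union_left h1'')
              (closure_mono Set.subset_union_right h2'')
        | inv x _ ih =>
          obtain ⟨S1, h1, h1', h1''⟩ := ih
          exact ⟨S1, h1, h1', inv_mem h1''⟩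
      have hfinset : ∀ F : Finset G, (F : Set G) ⊆ normalClosure {a} → ∃ S : Set G, S.Finite ∧
          (∀ s ∈ S, RightNEngel l s) ∧ (F : Set G) ⊆ closure S := by
        intro F
        induction F using Finset.induction_on with
        | empty => intro _; exact ⟨∅, Set.finite_empty, by simp, by simp⟩
        | insert x s _ ih =>
          intro hs
          rw [Finset.coe_insert, Set.insert_subset_iff] at hs
          obtain ⟨S1, h1, h1', h1''⟩ := ih hs.2
          obtain ⟨S2, h2, h2', h2''⟩ := hfin x hs.1
          refine ⟨S1 ∪ S2, h1.union h2, ?_, ?_⟩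
          · rintro s (hs | hs)
            · exact h1' s hs
            · exact h2' s hs
          · rw [Finset.coe_insert, Set.insert_subset_iff]
            exact ⟨closure_mono Set.subset_union_right h2'',
              fun z hz => closure_mono Set.subset_union_left (h1'' hz)⟩
      obtain ⟨S, hS, hS', hS''⟩ := hfinset S0 (by
        intro x hx
        apply hKle
        rw [← hS0]
        exact subset_closure hx)
      have hnil := hcon S hS hS'
      have hKS : K ≤ closure S := by
        rw [← hS0, closure_le]
        exact hS''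
      exact ((hTRF G).1 K (closure S) hKS ((hTRF G).2.2.2.2.1 (closure S) hnil)) K
        ⟨S0, hS0⟩ le_rfl
    exact (hHPR G).2.2.1 _ inferInstance hloc (subset_normalClosure rfl)
  obtain ⟨S, hS, hSE, hSn⟩ := h1
  -- step 2: the group `X = closure S`
  let X := closure S
  let T : Set X := {x : X | (x : G) ∈ S}
  have hTfin : T.Finite := by
    have : T = (Subtype.val : X → G) ⁻¹' S := rfl
    rw [this]
    exact hS.preimage Subtype.val_injective.injOn
  have hTcl : closure T = ⊤ := closure_closure_coe_preimage
  have hTE : ∀ t ∈ T, RightNEngel l t := by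
    intro t ht
    exact rightNEngel_of_injective hBAS l X G X.subtype X.subtype_injective t (hSE _ ht)
  obtain ⟨N, hN, hNn, hNmax⟩ := exists_max_nonnilpotent (X := X) hTfin.toFinset
    (by rw [hTfin.coe_toFinset]; exact hTcl) hSn
  let q := QuotientGroup.mk' N
  have hq : Function.Surjective q := QuotientGroup.mk'_surjective N
  have hSq : closure ((hTfin.toFinset.image q : Finset (X ⧸ N)) : Set (X ⧸ N)) = ⊤ := by
    rw [Finset.coe_image, hTfin.coe_toFinset, ← MonoidHom.map_closure, hTcl,
      ← MonoidHom.range_eq_map, MonoidHom.range_eq_top.mpr hq]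
  have hSqE : ∀ s ∈ hTfin.toFinset.image q, RightNEngel l s := by
    intro s hs
    rw [Finset.mem_image] at hs
    obtain ⟨t, ht, rfl⟩ := hs
    exact rightNEngel_map hBAS l X (X ⧸ N) q hq t (hTE t (hTfin.mem_toFinset.1 ht))
  have hquot : ∀ L : Subgroup (X ⧸ N), ∀ _ : L.Normal, L ≠ ⊥ →
      Group.IsNilpotent ((X ⧸ N) ⧸ L) := by
    intro L hL hL1
    have hlt : N < L.comap q := by
      refine lt_of_le_of_ne ?_ ?_
      · intro x hx
        rw [mem_comap]
        have : q x = 1 := (QuotientGroup.eq_one_iff x).2 hx
        rw [this]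
        exact one_mem L
      · intro he
        refine hL1 ?_
        rw [eq_bot_iff]
        intro y hy
        obtain ⟨x, rfl⟩ := hq y
        have : x ∈ N := by rw [he]; exact hy
        rw [mem_bot]
        exact (QuotientGroup.eq_one_iff x).2 this
    obtain ⟨c, hc⟩ := hNmax (L.comap q) inferInstance hlt
    rw [nilpotent_quotient_iff]
    refine ⟨c, ?_⟩
    have h : ((⊤ : Subgroup X).lowerCentralSeries c).map q
        = (⊤ : Subgroup (X ⧸ N)).lowerCentralSeries c := by
      rw [map_lowerCentralSeries, ← MonoidHom.range_eq_map, MonoidHom.range_eq_top.mpr hq]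
    rw [← h, map_le_iff_le_comap]
    exact hc
  refine ⟨X ⧸ N, inferInstance, ⟨hTfin.toFinset.image q, hSq, hSqE⟩, hNn, hquot, ?_⟩
  intro L hL hL1 hLin
  have hnilQ : Group.IsNilpotent ((X ⧸ N) ⧸ L) := hquot L hL hL1
  have hsol : Group.IsSolvable ((X ⧸ N) ⧸ L) := inferInstance
  have hQ : InL ((X ⧸ N) ⧸ L) := (hLNI _).1 hsol
  have hH : InL (X ⧸ N) := InL.ext L hLin hQ
  have hgen : ∀ s ∈ hTfin.toFinset.image q, s ∈ HP (X ⧸ N) := by
    intro s hs
    have hr : RightEngel s := fun g => ⟨l, hSqE s hs g⟩
    have := hMAJ (X ⧸ N) hH s⁻¹ (hRLE _ s hr)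
    exact (inv_mem_iff).1 this
  have htop : HP (X ⧸ N) = ⊤ := by
    rw [eq_top_iff, ← hSq, closure_le]
    intro s hs
    exact hgen s hs
  have hloc : LocNilp (⊤ : Subgroup (X ⧸ N)) := htop ▸ (hHPR (X ⧸ N)).2.1
  have : Group.IsNilpotent (⊤ : Subgroup (X ⧸ N)) :=
    hloc ⊤ ⟨_, hSq⟩ le_rfl
  exact hNn (Group.isNilpotent_top.1 this)

end Pool.Agent.helper80.EN
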